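import Mathlib

set_option autoImplicit false

open Filter Topology Metric

namespace Pool.Agent.Results.MP_5d6127_an.Fails

/-- The unit bidisc (`ℂ × ℂ` carries the maximum norm). -/
def U : Set (ℂ × ℂ) := ball 0 1

/-- Normal Loewner chains on the bidisc. -/
structure IsChain (f : ℝ → ℂ × ℂ → ℂ × ℂ) : Prop where
  holo : ∀ t, 0 ≤ t → DifferentiableOn ℂ (f t) U
  inj : ∀ t, 0 ≤ t → Set.InjOn (f t) U
  zero : ∀ t, 0 ≤ t → f t 0 = 0
  deriv : ∀ t, 0 ≤ t →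
    fderiv ℂ (f t) 0 = ((Real.exp t : ℝ) : ℂ) • ContinuousLinearMap.id ℂ (ℂ × ℂ)
  sub : ∀ s t, 0 ≤ s → s ≤ t → f s '' U ⊆ f t '' U
  normal : ∀ t : ℕ → ℝ, (∀ n, 0 ≤ t n) → ∃ φ : ℕ → ℕ, StrictMono φ ∧ ∃ g : ℂ × ℂ → ℂ × ℂ,
    TendstoLocallyUniformlyOn (fun n z => Real.exp (-t (φ n)) • f (t (φ n)) z) g atTop U

/-- The class `S⁰(U², M)`. -/
def InS0 (M : ℝ) (g : ℂ × ℂ → ℂ × ℂ) : Prop :=
  (∃ f, IsChain f ∧ ∀ z ∈ U, f 0 z = g z) ∧ ∀ z ∈ U, ‖g z‖ ≤ M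

/-- `a¹_{0,2} = (1/2) ∂²f₁/∂z₂² (0)`. -/
noncomputable def a102 (f : ℂ × ℂ → ℂ × ℂ) : ℂ := iteratedDeriv 2 (fun t : ℂ => (f (0, t)).1) 0 / 2

/-- The shear `(z₁ + b z₂², z₂)`. -/
def shear (b : ℝ) (z : ℂ × ℂ) : ℂ × ℂ := (z.1 + b * z.2 ^ 2, z.2)

theorem memU {z : ℂ × ℂ} : z ∈ U ↔ ‖z.1‖ < 1 ∧ ‖z.2‖ < 1 := by simp [U, Prod.norm_def]

theorem inS0 {M b : ℝ} (h1 : |b| ≤ 1) (h2 : 1 + |b| ≤ M) : InS0 M (shear b) := by
  have hb : ∀ z : ℂ, ‖z‖ < 1 → ‖(b : ℂ) * z ^ 2‖ ≤ |b| := fun z hz => by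
    rw [norm_mul, norm_pow, Complex.norm_real, Real.norm_eq_abs]
    exact mul_le_of_le_one_right (abs_nonneg _) (pow_le_one₀ (norm_nonneg _) hz.le)
  have he : ∀ t, ((Real.exp t : ℝ) : ℂ) ≠ 0 := fun t => by simp
  refine ⟨⟨fun t z => ((Real.exp t : ℝ) : ℂ) • shear b z, ⟨fun t _ => ?_, fun t _ z _ w _ h => ?_,
    fun t _ => by simp [shear], fun t _ => ?_, ?_, fun t _ => ⟨id, strictMono_id, shear b, ?_⟩⟩,
    by simp⟩, fun z hz => ?_⟩
  · unfold shear; fun_prop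
  · obtain ⟨a1, a2⟩ := Prod.ext_iff.1 (smul_right_injective _ (he t) h)
    simp only [shear] at a1 a2
    rw [a2] at a1
    exact Prod.ext (add_right_cancel a1) a2
  · have := ((hasFDerivAt_fst.add (((hasFDerivAt_snd (𝕜 := ℂ) (p := (0 : ℂ × ℂ))).pow 2).const_mul
      (b : ℂ))).prodMk hasFDerivAt_snd).const_smul ((Real.exp t : ℝ) : ℂ)
    exact this.fderiv.trans (by ext <;> simp)
  · rintro s t - hst _ ⟨z, hz, rfl⟩
    rw [memU] at hz
    have l0 := Real.exp_pos (s - t)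
    have l1 := Real.exp_le_one_iff.2 (sub_nonpos.2 hst)
    have e : Real.exp s = Real.exp t * Real.exp (s - t) := by rw [← Real.exp_add]; ring_nf
    rw [e]
    generalize Real.exp (s - t) = l at *
    refine ⟨(l * z.1 + (l * (1 - l) : ℝ) * (b * z.2 ^ 2), l * z.2), memU.2 ⟨?_, ?_⟩, ?_⟩
    · refine (norm_add_le _ _).trans_lt ?_
      rw [norm_mul, norm_mul, Complex.norm_real, Complex.norm_real, Real.norm_of_nonneg l0.le,
        Real.norm_of_nonneg (by nlinarith)]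
      nlinarith [hb _ hz.2, mul_lt_mul_of_pos_left hz.1 l0, mul_nonneg l0.le (sub_nonneg.2 l1)]
    · rw [norm_mul, Complex.norm_real, Real.norm_of_nonneg l0.le]; nlinarith [hz.2]
    · ext <;> simp [shear] <;> ring
  · have : (fun (n : ℕ) z => Real.exp (-t (id n)) • ((Real.exp (t (id n)) : ℝ) : ℂ) • shear b z) =
        fun _ => shear b := by
      ext1 n; ext1 z
      rw [Complex.coe_smul, smul_smul, ← Real.exp_add]; simp
    rw [this]
    exact fun u hu x _ => ⟨U, self_mem_nhdsWithin, .of_forall fun _ _ _ => refl_mem_uniformity hu⟩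
  · rw [memU] at hz
    refine max_le ((norm_add_le _ _).trans ?_) ?_ <;>
      linarith [hb _ hz.2, abs_nonneg b, show ‖(shear b z).2‖ < 1 from hz.2]

theorem a102_shear (b : ℝ) : a102 (shear b) = b := by
  have : (fun t : ℂ => (shear b (0, t)).1) = fun t : ℂ => (b : ℂ) * t ^ 2 := by
    funext t; simp [shear]
  rw [a102, this, iteratedDeriv_const_mul_field, iteratedDeriv_pow]
  simp

theorem result (M : ℝ) (hM : 1 < M) :
    ∃ f, InS0 M f ∧ ‖a102 f‖ = min 1 (M - 1) ∧ 1 - 1 / M < ‖a102 f‖ := by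
  have h0 : 0 < 1 / M := by positivity
  have h2 : 1 - 1 / M < M - 1 := by
    have : M - 1 - (1 - 1 / M) = (M - 1) ^ 2 / M := by field_simp
    have h3 : 0 < (M - 1) ^ 2 / M := div_pos (by nlinarith) (by linarith)
    linarith
  have hb : 0 ≤ min 1 (M - 1) := le_min zero_le_one (by linarith)
  have e : ‖a102 (shear (min 1 (M - 1)))‖ = min 1 (M - 1) := by
    rw [a102_shear, Complex.norm_real, Real.norm_of_nonneg hb]
  refine ⟨shear (min 1 (M - 1)), inS0 ?_ ?_, e, ?_⟩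
  · rw [abs_of_nonneg hb]; exact min_le_left _ _
  · rw [abs_of_nonneg hb]; linarith [min_le_right 1 (M - 1)]
  · rw [e]; exact lt_min (by linarith) h2

end Pool.Agent.Results.MP_5d6127_an.Fails
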